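import Pool.Agent.Helper286.Strict.P20

/-! The example. -/

universe u

namespace Pool.Agent.Results.MP_00f8de_gt.StrictCmpDef

open Set Topology Pool.Agent.Helper286.Strict

lemma degr_le {P : ℕ → Prop} {k : ℕ} (h : P k) : degr P ≤ (((k : ℤ) - 1 : ℤ) : WithTop ℤ) := by
  classical
  have hex : ∃ k, P k := ⟨k, h⟩
  unfold degr
  rw [dif_pos hex]
  have h1 : Nat.find hex ≤ k := Nat.find_min' hex h
  apply WithTop.coe_le_coe.mpr
  omega

lemma lt_degr {P : ℕ → Prop} {k : ℕ} (h : ∀ j, j ≤ k → ¬ P j) :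
    (((k : ℤ) - 1 : ℤ) : WithTop ℤ) < degr P := by
  classical
  unfold degr
  split_ifs with hex
  · have h1 : k < Nat.find hex := by
      by_contra hc
      exact h _ (not_lt.mp hc) (Nat.find_spec hex)
    apply WithTop.coe_lt_coe.mpr
    omega
  · exact WithTop.coe_lt_top _

lemma covDimLE_mono {k k' : ℕ} (hk : k ≤ k') {M : Type u} [TopologicalSpace M]
    (h : CovDimLE k M) : CovDimLE k' M := by
  intro 𝒰 h1 h2 h3
  obtain ⟨𝒱, h4, h5, h6, h7, h8⟩ := h 𝒰 h1 h2 h3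
  exact ⟨𝒱, h4, h5, h6, h7, fun x => (h8 x).trans hk⟩

lemma defLE_mono {k k' : ℕ} (hk : k ≤ k') {X : Type u} [TopologicalSpace X]
    (h : DefLE k X) : DefLE k' X := by
  obtain ⟨Y, hY, f, h1, h2, h3, h4, h5⟩ := h
  exact ⟨Y, hY, f, h1, h2, h3, h4, covDimLE_mono hk h5⟩

/-- the ambient space -/
abbrev EE : Type := ((Fin 5 → ℝ) × ℝ) × ((Fin 12 → ℝ) × ℝ × ℝ)

/-- a base point -/
def b0 : (Fin 12 → ℝ) × ℝ × ℝ := (0, (-1, 0))

/-- The example, a disjoint union of a copy of `AA` and a copy of `BB`. -/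
def XX : Set EE := {z | (z.1 ∈ AA ∧ z.2 = b0) ∨ (z.1 = 0 ∧ z.2 ∈ BB)}

/-- the copy of the first piece -/
def A1 : Set EE := {z | z.1 ∈ AA ∧ z.2 = b0}

/-- the copy of the second piece -/
def B1 : Set EE := {z | z.1 = 0 ∧ z.2 ∈ BB}

lemma XX_eq : XX = A1 ∪ B1 := rfl

lemma sv {E : Type*} [TopologicalSpace E] (Y : Set E) : IsEmbedding ((↑) : Y → E) :=
  IsEmbedding.subtypeVal

lemma emb1 : IsEmbedding (fun a : AA => ((a.1, b0) : EE)) :=
  (Function.LeftInverse.isEmbedding (f := fun z : EE => z.1)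
    (g := fun a : (Fin 5 → ℝ) × ℝ => ((a, b0) : EE)) (fun _ => rfl) (by fun_prop)
    (by fun_prop)).comp IsEmbedding.subtypeVal

lemma emb2 : IsEmbedding (fun b : BB => ((0, b.1) : EE)) :=
  (Function.LeftInverse.isEmbedding (f := fun z : EE => z.2)
    (g := fun b : (Fin 12 → ℝ) × ℝ × ℝ => ((0, b) : EE)) (fun _ => rfl) (by fun_prop)
    (by fun_prop)).comp IsEmbedding.subtypeVal

lemma range1 : range (fun a : AA => ((a.1, b0) : EE)) = A1 := by
  ext z
  constructor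
  · rintro ⟨a, rfl⟩
    exact ⟨a.2, rfl⟩
  · rintro ⟨h1, h2⟩
    exact ⟨⟨z.1, h1⟩, Prod.ext rfl h2.symm⟩

lemma range2 : range (fun b : BB => ((0, b.1) : EE)) = B1 := by
  ext z
  constructor
  · rintro ⟨b, rfl⟩
    exact ⟨rfl, b.2⟩
  · rintro ⟨h1, h2⟩
    exact ⟨⟨z.2, h2⟩, Prod.ext h1.symm rfl⟩

lemma PL_A1 (k : ℕ) : PL k A1 ↔ PL k AA := by
  rw [← range1, ← cmpLargeLE_iff k emb1, cmpLargeLE_iff k (sv AA),
    Subtype.range_coe]

lemma PCmp_A1 (k : ℕ) : PCmp k A1 ↔ PCmp k AA := by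
  rw [← range1, ← cmpLE_iff k emb1, cmpLE_iff k (sv AA),
    Subtype.range_coe]

lemma PL_B1 (k : ℕ) : PL k B1 ↔ PL k BB := by
  rw [← range2, ← cmpLargeLE_iff k emb2, cmpLargeLE_iff k (sv BB),
    Subtype.range_coe]

/-- the two separating open sets -/
def O1 : Set EE := {z | z.2.2.1 < -(1 / 2)}

/-- the two separating open sets -/
def O2 : Set EE := {z | -(1 / 2) < z.2.2.1}

lemma O1_open : IsOpen O1 :=
  isOpen_lt (continuous_fst.comp (continuous_snd.comp continuous_snd)) continuous_const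

lemma O2_open : IsOpen O2 :=
  isOpen_lt continuous_const (continuous_fst.comp (continuous_snd.comp continuous_snd))

lemma O12 : Disjoint O1 O2 := by
  rw [Set.disjoint_left]
  intro z h1 h2
  exact lt_asymm (show z.2.2.1 < -(1 / 2) from h1) h2

lemma A1_sub : A1 ⊆ O1 := by
  rintro z ⟨_, h⟩
  show z.2.2.1 < -(1 / 2)
  rw [h]
  show (-1 : ℝ) < -(1 / 2)
  norm_num

lemma B1_sub : B1 ⊆ O2 := by
  rintro z ⟨_, h⟩
  show -(1 / 2) < z.2.2.1
  have h0 : 0 ≤ z.2.2.1 := by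
    rcases h with h | ⟨i, j, _, h⟩
    · rw [h.2]
    · rw [h]
      exact (jpos i).le
  linarith

lemma XX_pcmp : PCmp 5 XX := by
  rw [XX_eq]
  apply PCmp.sum 5 O1_open O2_open O12 A1_sub B1_sub
  · rw [PCmp_A1]
    exact PCmp.succ 4 (PCmp.succ 3 AA_pcmp)
  · apply PL.toPCmp 5
    rw [PL_B1]
    exact BB_pl

lemma XX_pl : PL 6 XX := by
  rw [XX_eq]
  apply PL.sum 6 O1_open O2_open O12 A1_sub B1_sub
  · rw [PL_A1]
    exact AA_pl
  · apply PL.succ 5
    rw [PL_B1]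
    exact BB_pl

lemma XX_not_pl : ¬ PL 5 XX := by
  intro h
  have h1 : XX ∩ O2ᶜ = A1 := by
    ext z
    constructor
    · rintro ⟨h2 | h2, h3⟩
      · exact h2
      · exact absurd (B1_sub h2) h3
    · intro h2
      exact ⟨Or.inl h2, Set.disjoint_left.mp O12 (A1_sub h2)⟩
  have h2 := PL.closed 5 O2_open.isClosed_compl h
  rw [h1, PL_A1] at h2
  exact AA_not_pl h2

lemma XX_not_def : ¬ DefLE 6 XX := by
  apply def_bound (fun b : BB => (⟨(0, b.1), Or.inr ⟨rfl, b.2⟩⟩ : XX))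
  refine ⟨?_, ?_⟩
  · apply IsEmbedding.of_comp (g := fun z : XX => z.1)
    · fun_prop
    · exact continuous_subtype_val
    · exact emb2
  · have h1 : range (fun b : BB => (⟨(0, b.1), Or.inr ⟨rfl, b.2⟩⟩ : XX)) =
        ((↑) : XX → EE) ⁻¹' O1ᶜ := by
      ext z
      constructor
      · rintro ⟨b, rfl⟩
        intro hc
        exact (Set.disjoint_left.mp O12) hc (B1_sub ⟨rfl, b.2⟩)
      · intro hz
        rcases z.2 with h2 | h2
        · exact absurd (A1_sub h2) hz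
        · exact ⟨⟨z.1.2, h2.2⟩, Subtype.ext (Prod.ext h2.1.symm rfl)⟩
    rw [h1]
    exact O1_open.isClosed_compl.preimage continuous_subtype_val

lemma pl_mono {E : Type u} [PseudoMetricSpace E] {Y : Set E} {k k' : ℕ} (hk : k ≤ k')
    (h : PL k Y) : PL k' Y := by
  induction k', hk using Nat.le_induction with
  | base => exact h
  | succ n _ ih => exact PL.succ n ih

/-- There is a separable metrizable space with `cmp X < Cmp X < def X`. -/
theorem result : ∃ (X : Type) (_ : TopologicalSpace X), TopologicalSpace.SeparableSpace X ∧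
    TopologicalSpace.MetrizableSpace X ∧ cmp X < Cmp X ∧ Cmp X < defic X := by
  have e1 : ∀ k, CmpLE k XX ↔ PCmp k XX := fun k => by
    rw [cmpLE_iff k (sv XX), Subtype.range_coe]
  have e2 : ∀ k, CmpLargeLE k XX ↔ PL k XX := fun k => by
    rw [cmpLargeLE_iff k (sv XX), Subtype.range_coe]
  refine ⟨XX, inferInstance, inferInstance, inferInstance, ?_, ?_⟩
  · refine lt_of_le_of_lt (degr_le (k := 5) ((e1 5).mpr XX_pcmp)) (lt_degr (k := 5) ?_)
    intro j hj h
    exact XX_not_pl (pl_mono hj ((e2 j).mp h))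
  · refine lt_of_le_of_lt (degr_le (k := 6) ((e2 6).mpr XX_pl)) (lt_degr (k := 6) ?_)
    intro j hj h
    exact XX_not_def (defLE_mono hj h)

end Pool.Agent.Results.MP_00f8de_gt.StrictCmpDef
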